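import Mathlib

/-!
# Strongly divisible graphs
-/

set_option autoImplicit false

namespace Pool.Agent.Q227.SD

/-- `c` is a clique-colouring of `H`: no maximal clique with at least two vertices is contained in
a colour class. -/
def IsCliqueColouring {W : Type} {k : ℕ} (H : SimpleGraph W) (c : W → Fin k) : Prop :=
  ∀ K : Set W, Maximal (fun K => H.IsClique K) K → K.Nontrivial → ¬ ∃ i, ∀ v ∈ K, c v = i

/-- `H` has a `k`-clique-colouring. -/
def CliqueColourable {W : Type} (k : ℕ) (H : SimpleGraph W) : Prop :=
  ∃ c : W → Fin k, IsCliqueColouring H c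

/-- `G` is strongly `k`-divisible: every induced subgraph has a `k`-clique-colouring. -/
def StronglyDivisible {V : Type} (k : ℕ) (G : SimpleGraph V) : Prop :=
  ∀ S : Set V, CliqueColourable k (G.induce S)

theorem mem_of_maximal {W : Type} {H : SimpleGraph W} {K : Set W}
    (hK : Maximal (fun K => H.IsClique K) K) {v : W} (h : ∀ u ∈ K, u ≠ v → H.Adj u v) : v ∈ K := by
  have h1 : H.IsClique (insert v K) := by
    intro a ha b hb hab
    rcases Set.mem_insert_iff.1 ha with ha' | ha' <;> rcases Set.mem_insert_iff.1 hb with hb' | hb'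
    · exact absurd (ha'.trans hb'.symm) hab
    · rw [ha'] at hab ⊢
      exact (h b hb' hab.symm).symm
    · rw [hb'] at hab ⊢
      exact h a ha' hab
    · exact hK.prop ha' hb' hab
  exact hK.le_of_ge h1 (Set.subset_insert v K) (Set.mem_insert v K)

theorem maximal_of {W : Type} {H : SimpleGraph W} {K : Set W} (h1 : H.IsClique K)
    (h2 : ∀ v, (∀ u ∈ K, u ≠ v → H.Adj u v) → v ∈ K) : Maximal (fun K => H.IsClique K) K := by
  refine ⟨h1, fun K' hK' hle v hv => h2 v fun u hu huv => hK' (hle hu) hv huv⟩

theorem pair_maximal {W : Type} {H : SimpleGraph W} {a b : W} (hab : H.Adj a b)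
    (h : ∀ v, H.Adj a v → H.Adj b v → False) : Maximal (fun K => H.IsClique K) {a, b} := by
  refine maximal_of ?_ fun v hv => ?_
  · intro x hx y hy hxy
    simp only [Set.mem_insert_iff, Set.mem_singleton_iff] at hx hy
    rcases hx with rfl | rfl <;> rcases hy with rfl | rfl
    · exact absurd rfl hxy
    · exact hab
    · exact hab.symm
    · exact absurd rfl hxy
  · by_contra hne
    simp only [Set.mem_insert_iff, Set.mem_singleton_iff, not_or] at hne
    exact h v (hv a (by simp) (fun h => hne.1 h.symm)) (hv b (by simp) (fun h => hne.2 h.symm))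

theorem ne_of_pair {W : Type} {H : SimpleGraph W} {k : ℕ} {c : W → Fin k}
    (hc : IsCliqueColouring H c) {a b : W} (hab : H.Adj a b)
    (h : ∀ v, H.Adj a v → H.Adj b v → False) : c a ≠ c b := by
  intro he
  refine hc _ (pair_maximal hab h) ⟨a, by simp, b, by simp, hab.ne⟩ ⟨c a, fun v hv => ?_⟩
  simp only [Set.mem_insert_iff, Set.mem_singleton_iff] at hv
  rcases hv with rfl | rfl
  · rfl
  · exact he.symm

end Pool.Agent.Q227.SD
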