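import Pool.Agent.Q227.SD.Defs
import Pool.Agent.Q227.MkG

/-!
# Strongly 2-divisible graphs: the construction

There are positions `0, …, L`, with two literals each; literals at different positions are
adjacent. Between the positions `j` and `j + 1` there is a connector, a path with five vertices
`(1, j), …, (5, j)`; its middle vertex `(3, j)` is also adjacent to all literals except those
marked by `nb j`.
-/

set_option autoImplicit false

namespace Pool.Agent.Q227.SD

/-- Codes of vertices: `(0, i, b)` is a literal at position `i`, and `(k, j, false)`, for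
`1 ≤ k ≤ 5`, is a vertex of the connector `j`. -/
abbrev Cd : Type := ℕ × ℕ × Bool

/-- One half of the adjacency. -/
def half (nb : ℕ → ℕ → Bool → Bool) (x y : Cd) : Bool :=
  (decide (x.1 = 0 ∧ y.1 = 0) && decide (x.2.1 < y.2.1)) ||
  (decide (x.1 = 0 ∧ y.1 = 1) && decide (x.2.1 = y.2.1)) ||
  (decide (x.1 = 0 ∧ y.1 = 5) && decide (x.2.1 = y.2.1 + 1)) ||
  (decide (1 ≤ x.1 ∧ y.1 = x.1 + 1) && decide (x.2.1 = y.2.1)) ||
  (decide (x.1 = 0 ∧ y.1 = 3) && !nb y.2.1 x.2.1 x.2.2)

theorem half_iff {nb : ℕ → ℕ → Bool → Bool} {x y : Cd} : half nb x y = true ↔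
    ((x.1 = 0 ∧ y.1 = 0) ∧ x.2.1 < y.2.1) ∨ ((x.1 = 0 ∧ y.1 = 1) ∧ x.2.1 = y.2.1) ∨
    ((x.1 = 0 ∧ y.1 = 5) ∧ x.2.1 = y.2.1 + 1) ∨
    ((1 ≤ x.1 ∧ y.1 = x.1 + 1) ∧ x.2.1 = y.2.1) ∨
    ((x.1 = 0 ∧ y.1 = 3) ∧ nb y.2.1 x.2.1 x.2.2 = false) := by
  simp only [half, Bool.or_eq_true, Bool.and_eq_true, decide_eq_true_eq, Bool.not_eq_true',
    or_assoc]

/-- The adjacency. -/
def adjD (nb : ℕ → ℕ → Bool → Bool) (x y : Cd) : Bool := half nb x y || half nb y x

theorem adjD_symm (nb : ℕ → ℕ → Bool → Bool) (x y : Cd) (h : adjD nb x y = true) :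
    adjD nb y x = true := by
  unfold adjD at h ⊢
  rwa [Bool.or_comm]

theorem adjD_irrefl (nb : ℕ → ℕ → Bool → Bool) (x : Cd) : adjD nb x x = false := by
  by_contra h
  rw [Bool.not_eq_false] at h
  unfold adjD at h
  rw [Bool.or_self, half_iff] at h
  omega

theorem adjD_iff {nb : ℕ → ℕ → Bool → Bool} {x y : Cd} :
    adjD nb x y = true ↔ half nb x y = true ∨ half nb y x = true := by
  unfold adjD
  rw [Bool.or_eq_true]

/-- The list of the codes. -/
def VL (L : ℕ) : List Cd :=
  (List.range (L + 1) ×ˢ [false, true]).map (fun p => ((0, p) : Cd)) ++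
    ([1, 2, 3, 4, 5] ×ˢ List.range L).map fun p => ((p.1, p.2, false) : Cd)

theorem mem_VL {L : ℕ} {v : Cd} : v ∈ VL L ↔
    (v.1 = 0 ∧ v.2.1 ≤ L) ∨ (1 ≤ v.1 ∧ v.1 ≤ 5 ∧ v.2.1 < L ∧ v.2.2 = false) := by
  obtain ⟨k, i, b⟩ := v
  unfold VL
  rw [List.mem_append, List.mem_map, List.mem_map]
  constructor
  · rintro (⟨⟨i', b'⟩, h1, h2⟩ | ⟨⟨k', i'⟩, h1, h2⟩)
    · have h1 := List.pair_mem_product.1 h1
      rw [List.mem_range] at h1
      simp only [Prod.mk.injEq] at h2
      left
      simp only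
      omega
    · have h1 := List.pair_mem_product.1 h1
      rw [List.mem_range] at h1
      simp only [Prod.mk.injEq, List.mem_cons, List.not_mem_nil, or_false] at h1 h2
      right
      obtain ⟨rfl, rfl, rfl⟩ := h2
      exact ⟨by simp only; omega, by simp only; omega, h1.2, rfl⟩
  · rintro (⟨h1, h2⟩ | ⟨h1, h2, h3, h4⟩)
    · simp only at h1 h2
      left
      refine ⟨(i, b), List.pair_mem_product.2 ⟨List.mem_range.2 (by omega), ?_⟩, by rw [h1]⟩
      cases b <;> simp
    · simp only at h1 h2 h3 h4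
      right
      refine ⟨(k, i), List.pair_mem_product.2 ⟨?_, List.mem_range.2 h3⟩, by rw [h4]⟩
      simp only [List.mem_cons, List.not_mem_nil, or_false]
      omega

theorem VL_nodup (L : ℕ) : (VL L).Nodup := by
  unfold VL
  refine List.Nodup.append ?_ ?_ ?_
  · refine (List.nodup_range.product (by decide)).map fun p q h => ?_
    simpa using h
  · refine (List.Nodup.product (by decide) List.nodup_range).map fun p q h => ?_
    simp only [Prod.mk.injEq, and_true] at h
    exact Prod.ext h.1 h.2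
  · intro v h1 h2
    obtain ⟨p, _, rfl⟩ := List.mem_map.1 h1
    obtain ⟨q, hq, h⟩ := List.mem_map.1 h2
    obtain ⟨k, i⟩ := q
    have hq := List.pair_mem_product.1 hq
    simp only [Prod.mk.injEq, List.mem_cons, List.not_mem_nil, or_false] at h hq
    omega

/-- The graph. -/
abbrev DG (L : ℕ) (nb : ℕ → ℕ → Bool → Bool) : SimpleGraph {v : Cd // v ∈ VL L} :=
  GrL (VL L) (adjD nb) (adjD_symm nb) (adjD_irrefl nb)

section

variable {L : ℕ} {nb : ℕ → ℕ → Bool → Bool} {W : Type} {H : SimpleGraph W} (f : H ↪g DG L nb)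

theorem adj_iff (u v : W) : H.Adj u v ↔ half nb (f u).1 (f v).1 = true ∨
    half nb (f v).1 (f u).1 = true := by
  rw [← f.map_adj_iff]
  exact adjD_iff

/-- The vertex with the code `v` is present. -/
def Pr (v : Cd) : Prop := ∃ w, (f w).1 = v

theorem inj {u v : W} (h : (f u).1 = (f v).1) : u = v := f.injective (Subtype.ext h)

theorem code_cases (w : W) : ((f w).1.1 = 0 ∧ (f w).1.2.1 ≤ L) ∨
    (1 ≤ (f w).1.1 ∧ (f w).1.1 ≤ 5 ∧ (f w).1.2.1 < L ∧ (f w).1.2.2 = false) :=
  mem_VL.1 (f w).2

/-- There is a literal at the position. -/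
def HasLit (i : ℕ) : Prop := ∃ b, Pr f (0, i, b)

/-- The middle vertex of the connector is linked to the left. -/
def LL (j : ℕ) : Prop := Pr f (1, j, false) ∧ Pr f (2, j, false) ∧ Pr f (3, j, false) ∧ HasLit f j

/-- The middle vertex of the connector is linked to the right. -/
def RL (j : ℕ) : Prop :=
  Pr f (3, j, false) ∧ Pr f (4, j, false) ∧ Pr f (5, j, false) ∧ HasLit f (j + 1)

open Classical in
/-- The colour of the middle vertex of a connector, if it is not linked. -/
noncomputable def del (lam : ℕ → Bool) (j : ℕ) : Bool :=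
  if h : ∃ p, ∃ b, Pr f (0, p, b) ∧ nb j p b = false then !lam h.choose else false

open Classical in
/-- The colour of the middle vertex of a connector. -/
noncomputable def zet (lam : ℕ → Bool) (j : ℕ) : Bool :=
  if LL f j then !lam j else if RL f j then !lam (j + 1) else del f lam j

open Classical in
/-- The colour of the first vertex of a connector. -/
noncomputable def ca (lam : ℕ → Bool) (j : ℕ) : Bool :=
  if HasLit f j then !lam j else zet f lam j

open Classical in
/-- The colour of the last vertex of a connector. -/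
noncomputable def cb (lam : ℕ → Bool) (j : ℕ) : Bool :=
  if HasLit f (j + 1) then !lam (j + 1) else zet f lam j

open Classical in
/-- The colouring. -/
noncomputable def col (lam : ℕ → Bool) (v : Cd) : Bool :=
  if v.1 = 0 then lam v.2.1
  else if v.1 = 1 then ca f lam v.2.1
  else if v.1 = 2 then (if Pr f (1, v.2.1, false) then !ca f lam v.2.1 else !zet f lam v.2.1)
  else if v.1 = 3 then zet f lam v.2.1
  else if v.1 = 4 then (if Pr f (5, v.2.1, false) then !cb f lam v.2.1 else !zet f lam v.2.1)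
  else cb f lam v.2.1

theorem pr_of {w : W} {k j : ℕ} (h1 : (f w).1.1 = k) (h2 : (f w).1.2.1 = j) (hk : k ≠ 0) :
    Pr f (k, j, false) := by
  refine ⟨w, ?_⟩
  have := code_cases f w
  have h3 : (f w).1.2.2 = false := by
    rcases this with h | h
    · omega
    · exact h.2.2.2
  exact Prod.ext h1 (Prod.ext h2 h3)

theorem hasLit_of {w : W} (h1 : (f w).1.1 = 0) : HasLit f (f w).1.2.1 :=
  ⟨(f w).1.2.2, w, Prod.ext h1 rfl⟩

/-- Chain edges get two colours. -/
theorem chain_ne {lam : ℕ → Bool}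
    (hlink : ∀ j, LL f j → RL f j → lam j = lam (j + 1)) {u v : W}
    (h : ((f u).1.1 = 0 ∧ (f v).1.1 = 1 ∧ (f u).1.2.1 = (f v).1.2.1) ∨
      ((f u).1.1 = 0 ∧ (f v).1.1 = 5 ∧ (f u).1.2.1 = (f v).1.2.1 + 1) ∨
      (1 ≤ (f u).1.1 ∧ (f v).1.1 = (f u).1.1 + 1 ∧ (f u).1.2.1 = (f v).1.2.1)) :
    col f lam (f u).1 ≠ col f lam (f v).1 := by
  obtain ⟨⟨ku, iu, bu⟩, hu⟩ : ∃ x, (f u).1 = x := ⟨_, rfl⟩
  obtain ⟨⟨kv, iv, bv⟩, hv⟩ : ∃ x, (f v).1 = x := ⟨_, rfl⟩
  have hcu := code_cases f u
  have hcv := code_cases f v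
  have hpu : ku ≠ 0 → Pr f (ku, iu, false) := fun hk => pr_of f (by rw [hu]) (by rw [hu]) hk
  have hpv : kv ≠ 0 → Pr f (kv, iv, false) := fun hk => pr_of f (by rw [hv]) (by rw [hv]) hk
  have hlu : ku = 0 → HasLit f iu := fun hk => by
    have := hasLit_of f (w := u) (by rw [hu]; exact hk)
    rwa [hu] at this
  rw [hu] at h hcu
  rw [hv] at h hcv
  rw [hu, hv]
  simp only at h hcu hcv
  -- colours of the ends of linked connectors
  have za : ∀ j, Pr f (1, j, false) → Pr f (2, j, false) → Pr f (3, j, false) →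
      ca f lam j = zet f lam j := by
    intro j h1 h2 h3
    unfold ca
    split_ifs with h4
    · unfold zet
      rw [if_pos ⟨h1, h2, h3, h4⟩]
    · rfl
  have zb : ∀ j, Pr f (3, j, false) → Pr f (4, j, false) → Pr f (5, j, false) →
      cb f lam j = zet f lam j := by
    intro j h1 h2 h3
    unfold cb
    split_ifs with h4
    · have hr : RL f j := ⟨h1, h2, h3, h4⟩
      unfold zet
      by_cases hl : LL f j
      · rw [if_pos hl, hlink j hl hr]
      · rw [if_neg hl, if_pos hr]
    · rfl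
  rcases h with ⟨rfl, rfl, rfl⟩ | ⟨rfl, rfl, rfl⟩ | ⟨h1, rfl, rfl⟩
  · have : ca f lam iu = !lam iu := by
      unfold ca
      rw [if_pos (hlu rfl)]
    simp [col, this]
  · have : cb f lam iv = !lam (iv + 1) := by
      unfold cb
      rw [if_pos (hlu rfl)]
    simp [col, this]
  · have hk : ku = 1 ∨ ku = 2 ∨ ku = 3 ∨ ku = 4 := by omega
    rcases hk with rfl | rfl | rfl | rfl
    · have hp := hpu (by omega)
      simp [col, hp]
    · by_cases hp : Pr f (1, iu, false)
      · have := za iu hp (hpu (by omega)) (hpv (by omega))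
        simp [col, hp, this]
      · simp [col, hp]
    · by_cases hp : Pr f (5, iu, false)
      · have := zb iu (hpu (by omega)) (hpv (by omega)) hp
        simp [col, hp, this]
      · simp [col, hp]
    · have hp := hpv (by omega)
      simp [col, hp]

/-- A maximal clique meets every position which it sees. -/
theorem meets {K : Set W} (hK : Maximal (fun K => H.IsClique K) K) (hnc : ∀ w ∈ K,
    (f w).1.1 = 0 ∨ (f w).1.1 = 3) {w : W} (hw : (f w).1.1 = 0)
    (hz : ∀ z ∈ K, (f z).1.1 = 3 → nb (f z).1.2.1 (f w).1.2.1 (f w).1.2.2 = false) :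
    ∃ u ∈ K, (f u).1.1 = 0 ∧ (f u).1.2.1 = (f w).1.2.1 := by
  by_contra hne
  push Not at hne
  have : w ∈ K := mem_of_maximal hK fun u hu huw => by
    rw [adj_iff f]
    rcases hnc u hu with h | h
    · have h1 := hne u hu h
      rcases lt_or_gt_of_ne h1 with h2 | h2
      · exact Or.inl (half_iff.2 (Or.inl ⟨⟨h, hw⟩, h2⟩))
      · exact Or.inr (half_iff.2 (Or.inl ⟨⟨hw, h⟩, h2⟩))
    · exact Or.inr (half_iff.2 (Or.inr (Or.inr (Or.inr (Or.inr ⟨⟨hw, h⟩, hz u hu h⟩)))))
  exact hne w this hw rfl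

/-- The colouring is a clique-colouring. -/
theorem col_ok (hC1 : ∀ j b, nb j j b = false ∧ nb j (j + 1) b = false) {lam : ℕ → Bool}
    (hlink : ∀ j, LL f j → RL f j → lam j = lam (j + 1))
    (hlit : ∀ K : Set W, Maximal (fun K => H.IsClique K) K → K.Nontrivial →
      (∀ w ∈ K, (f w).1.1 = 0) → ∃ p q, HasLit f p ∧ HasLit f q ∧ lam p ≠ lam q) :
    CliqueColourable 2 H := by
  classical
  refine ⟨fun w => if col f lam (f w).1 = true then 1 else 0, fun K hK hnt hmono => ?_⟩
  -- all colours of `K` are equal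
  have hm : ∀ u ∈ K, ∀ v ∈ K, col f lam (f u).1 = col f lam (f v).1 := by
    obtain ⟨i, hi⟩ := hmono
    intro u hu v hv
    have h1 := (hi u hu).trans (hi v hv).symm
    simp only at h1
    cases hcu : col f lam (f u).1 <;> cases hcv : col f lam (f v).1 <;>
      simp [hcu, hcv] at h1 ⊢
  have hother : ∀ w ∈ K, ∃ u ∈ K, H.Adj w u := by
    intro w hw
    obtain ⟨u, hu, hne⟩ := hnt.exists_ne w
    exact ⟨u, hu, hK.prop hw hu hne.symm⟩
  have hcol0 : ∀ w : W, (f w).1.1 = 0 → col f lam (f w).1 = lam (f w).1.2.1 := by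
    intro w hw
    unfold col
    rw [if_pos hw]
  -- no vertex of `K` is on a connector, except for middle vertices
  have hnc : ∀ w ∈ K, (f w).1.1 = 0 ∨ (f w).1.1 = 3 := by
    intro w hw
    by_contra hne
    push Not at hne
    obtain ⟨u, hu, hadj⟩ := hother w hw
    rw [adj_iff f, half_iff, half_iff] at hadj
    have hcw := code_cases f w
    have hcu := code_cases f u
    have h1 : ((f u).1.1 = 0 ∧ (f w).1.1 = 1 ∧ (f u).1.2.1 = (f w).1.2.1) ∨
        ((f u).1.1 = 0 ∧ (f w).1.1 = 5 ∧ (f u).1.2.1 = (f w).1.2.1 + 1) ∨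
        (1 ≤ (f u).1.1 ∧ (f w).1.1 = (f u).1.1 + 1 ∧ (f u).1.2.1 = (f w).1.2.1) ∨
        (1 ≤ (f w).1.1 ∧ (f u).1.1 = (f w).1.1 + 1 ∧ (f w).1.2.1 = (f u).1.2.1) := by
      rcases hadj with (h | h | h | h | h) | (h | h | h | h | h) <;> omega
    rcases h1 with h | h | h | h
    · exact chain_ne f hlink (Or.inl h) (hm u hu w hw)
    · exact chain_ne f hlink (Or.inr (Or.inl h)) (hm u hu w hw)
    · exact chain_ne f hlink (Or.inr (Or.inr h)) (hm u hu w hw)
    · exact chain_ne f hlink (Or.inr (Or.inr h)) (hm w hw u hu)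
  by_cases hz : ∃ z ∈ K, (f z).1.1 = 3
  · -- a middle vertex
    obtain ⟨z, hzK, hz3⟩ := hz
    set j := (f z).1.2.1 with hj
    have hzp : Pr f (3, j, false) := pr_of f hz3 rfl (by omega)
    have huniq : ∀ y ∈ K, (f y).1.1 = 3 → (f y).1.2.1 = j := by
      intro y hy hy3
      by_contra hne
      have hyz : y ≠ z := fun h => hne (by rw [h])
      have hadj := hK.prop hy hzK hyz
      rw [adj_iff f, half_iff, half_iff] at hadj
      rcases hadj with (h | h | h | h | h) | (h | h | h | h | h) <;> omega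
    have hcz : col f lam (f z).1 = zet f lam j := by
      unfold col
      rw [if_neg (by omega), if_neg (by omega), if_neg (by omega), if_pos hz3]
    -- a literal of the clique with the other colour
    have key : ∀ p, HasLit f p → (∀ b, Pr f (0, p, b) → nb j p b = false) →
        zet f lam j = !lam p → False := by
      rintro p ⟨b, w, hw⟩ hnb hzl
      obtain ⟨u, hu, hu0, hup⟩ := meets f hK hnc (w := w) (by rw [hw]) fun y hy hy3 => by
        rw [huniq y hy hy3, hw]
        exact hnb b ⟨w, hw⟩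
      rw [hw] at hup
      have h1 := hm u hu z hzK
      rw [hcol0 u hu0, hcz, hzl, hup] at h1
      simp at h1
    by_cases hl : LL f j
    · exact key j hl.2.2.2 (fun b _ => (hC1 j b).1) (by unfold zet; rw [if_pos hl])
    · by_cases hr : RL f j
      · exact key (j + 1) hr.2.2.2 (fun b _ => (hC1 j b).2)
          (by unfold zet; rw [if_neg hl, if_pos hr])
      · -- the colour is chosen suitably
        obtain ⟨u, hu, hadj⟩ := hother z hzK
        have hu0 : (f u).1.1 = 0 := by
          rcases hnc u hu with h | h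
          · exact h
          · exfalso
            rw [adj_iff f, half_iff, half_iff] at hadj
            have := huniq u hu h
            rcases hadj with (h | h | h | h | h) | (h | h | h | h | h) <;> omega
        have hnbu : nb j (f u).1.2.1 (f u).1.2.2 = false := by
          rw [adj_iff f, half_iff, half_iff] at hadj
          rcases hadj with (h | h | h | h | h) | (h | h | h | h | h)
          all_goals first
            | omega
            | exact h.2
        have hex : ∃ p, ∃ b, Pr f (0, p, b) ∧ nb j p b = false :=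
          ⟨(f u).1.2.1, (f u).1.2.2, ⟨u, Prod.ext hu0 rfl⟩, hnbu⟩
        have hzet : zet f lam j = !lam hex.choose := by
          unfold zet del
          rw [if_neg hl, if_neg hr, dif_pos hex]
        obtain ⟨b, ⟨w, hw⟩, hnb⟩ := hex.choose_spec
        obtain ⟨y, hy, hy0, hyp⟩ := meets f hK hnc (w := w) (by rw [hw]) fun y hy hy3 => by
          rw [huniq y hy hy3, hw]
          exact hnb
        rw [hw] at hyp
        have h1 := hm y hy z hzK
        rw [hcol0 y hy0, hcz, hzet, hyp] at h1
        simp at h1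
  · -- only literals
    push Not at hz
    have h0 : ∀ w ∈ K, (f w).1.1 = 0 := fun w hw => (hnc w hw).resolve_right (hz w hw)
    obtain ⟨p, q, ⟨b, w, hw⟩, ⟨b', w', hw'⟩, hpq⟩ := hlit K hK hnt h0
    obtain ⟨u, hu, hu0, hup⟩ := meets f hK hnc (w := w) (by rw [hw]) fun y hy hy3 => by
      have := h0 y hy
      omega
    obtain ⟨u', hu', hu0', hup'⟩ := meets f hK hnc (w := w') (by rw [hw']) fun y hy hy3 => by
      have := h0 y hy
      omega
    have h1 := hm u hu u' hu'
    rw [hcol0 u hu0, hcol0 u' hu0', hup, hup', hw, hw'] at h1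
    exact hpq h1

end

end Pool.Agent.Q227.SD
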