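import Pool.Agent.Q227.SD.Graph

/-!
# Strongly 2-divisible graphs: correctness of the construction
-/

set_option autoImplicit false

namespace Pool.Agent.Q227.SD

/-- `σ` chooses, for every connector, a literal marked by it. -/
def Sol (L : ℕ) (nb : ℕ → ℕ → Bool → Bool) (σ : ℕ → Bool) : Prop :=
  ∀ j < L, ∃ i ≤ L, nb j i (σ i) = true

/-- The conditions on the marks. -/
structure Good (L : ℕ) (nb : ℕ → ℕ → Bool → Bool) : Prop where
  pos : 1 ≤ L
  near : ∀ j b, nb j j b = false ∧ nb j (j + 1) b = false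
  gap : ∀ p q, p < q → q ≤ L → ¬ (p = 0 ∧ q = L) →
    ∃ j, p ≤ j ∧ j < q ∧ ∀ i, p ≤ i → i ≤ q → ∀ b, nb j i b = false

section

variable {L : ℕ} {nb : ℕ → ℕ → Bool → Bool} {W : Type} {H : SimpleGraph W} (f : H ↪g DG L nb)

theorem HasLit.le {i : ℕ} (h : HasLit f i) : i ≤ L := by
  obtain ⟨b, w, hw⟩ := h
  have := code_cases f w
  rw [hw] at this
  simp only at this
  omega

include f in
theorem colourable (hg : Good L nb) (hun : ∀ σ, ¬ Sol L nb σ) : CliqueColourable 2 H := by
  classical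
  by_cases hK : ∃ K : Set W, Maximal (fun K => H.IsClique K) K ∧ K.Nontrivial ∧
      ∀ w ∈ K, (f w).1.1 = 0
  swap
  · refine col_ok f hg.near (lam := fun _ => false) (fun _ _ _ => rfl) fun K h1 h2 h3 => ?_
    exact absurd ⟨K, h1, h2, h3⟩ hK
  obtain ⟨K, hK, hnt, h0⟩ := hK
  have hmeet : ∀ i, HasLit f i → ∃ u ∈ K, (f u).1.1 = 0 ∧ (f u).1.2.1 = i := by
    rintro i ⟨b, w, hw⟩
    obtain ⟨u, hu, hu0, hup⟩ := meets f hK (fun w hw => Or.inl (h0 w hw)) (w := w) (by rw [hw])
      fun z hz hz3 => by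
        have := h0 z hz
        omega
    exact ⟨u, hu, hu0, by rw [hup, hw]⟩
  have hlit : ∀ u ∈ K, HasLit f (f u).1.2.1 := fun u hu => hasLit_of f (h0 u hu)
  have hne : ∀ u ∈ K, ∀ v ∈ K, u ≠ v → (f u).1.2.1 ≠ (f v).1.2.1 := by
    intro u hu v hv huv
    have hadj := hK.prop hu hv huv
    rw [adj_iff f, half_iff, half_iff] at hadj
    have h1 := h0 u hu
    have h2 := h0 v hv
    omega
  -- the first and the last position
  obtain ⟨u₀, hu₀, v₀, hv₀, huv⟩ := hnt
  have hex : ∃ i, HasLit f i := ⟨_, hlit u₀ hu₀⟩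
  obtain ⟨p, hp, hpmin⟩ : ∃ p, HasLit f p ∧ ∀ i, HasLit f i → p ≤ i :=
    ⟨Nat.find hex, Nat.find_spec hex, fun i hi => Nat.find_min' hex hi⟩
  obtain ⟨q, hq, hqmax⟩ : ∃ q, HasLit f q ∧ ∀ i, HasLit f i → i ≤ q := by
    have hex' : ∃ i, i ≤ L ∧ HasLit f (L - i) := by
      obtain ⟨i, hi⟩ := hex
      have := HasLit.le f hi
      exact ⟨L - i, by omega, by rwa [show L - (L - i) = i by omega]⟩
    have hs := Nat.find_spec hex'
    refine ⟨L - Nat.find hex', hs.2, fun i hi => ?_⟩
    have hle := HasLit.le f hi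
    have := Nat.find_min' hex' (m := L - i)
      ⟨by omega, by rwa [show L - (L - i) = i by omega]⟩
    omega
  have hpq : p < q := by
    have h1 := hne u₀ hu₀ v₀ hv₀ huv
    have h2 := hpmin _ (hlit u₀ hu₀)
    have h3 := hpmin _ (hlit v₀ hv₀)
    have h4 := hqmax _ (hlit u₀ hu₀)
    have h5 := hqmax _ (hlit v₀ hv₀)
    omega
  by_cases hcut : ∃ i, p ≤ i ∧ i < q ∧ ¬ (LL f i ∧ RL f i)
  · obtain ⟨i, h1, h2, h3⟩ := hcut
    refine col_ok f hg.near (lam := fun j => decide (j ≤ i)) (fun j hl hr => ?_)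
      fun K _ _ _ => ⟨p, q, hp, hq, ?_⟩
    · have hji : j ≠ i := fun h => h3 (h ▸ ⟨hl, hr⟩)
      simp only [decide_eq_decide]
      omega
    · simp only [ne_eq, decide_eq_decide]
      omega
  push Not at hcut
  exfalso
  have hz : ∀ j, p ≤ j → j < q → ∃ z, (f z).1 = (3, j, false) ∧ z ∉ K := by
    intro j h1 h2
    obtain ⟨z, hz⟩ := (hcut j h1 h2).1.2.2.1
    refine ⟨z, hz, fun hzK => ?_⟩
    have := h0 z hzK
    rw [hz] at this
    simp at this
  -- a missed literal
  have hmiss : ∀ j, p ≤ j → j < q → ∃ u ∈ K, nb j (f u).1.2.1 (f u).1.2.2 = true := by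
    intro j h1 h2
    obtain ⟨z, hz, hzK⟩ := hz j h1 h2
    by_contra hall
    push Not at hall
    refine hzK (mem_of_maximal hK fun u hu _ => ?_)
    rw [adj_iff f]
    refine Or.inl (half_iff.2 (Or.inr (Or.inr (Or.inr (Or.inr ⟨⟨h0 u hu, by rw [hz]⟩, ?_⟩)))))
    rw [hz]
    simpa using hall u hu
  by_cases hall : p = 0 ∧ q = L
  · refine hun (fun i => decide (∃ w ∈ K, (f w).1 = (0, i, true))) fun j hj => ?_
    obtain ⟨u, hu, hnb⟩ := hmiss j (by omega) (by omega)
    refine ⟨(f u).1.2.1, HasLit.le f (hlit u hu), ?_⟩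
    convert hnb using 2
    cases hb : (f u).1.2.2
    · rw [decide_eq_false_iff_not]
      rintro ⟨w, hw, hfw⟩
      have huw : u ≠ w := by
        rintro rfl
        rw [hfw] at hb
        simp at hb
      exact hne u hu w hw huw (by rw [hfw])
    · rw [decide_eq_true_iff]
      exact ⟨u, hu, Prod.ext (h0 u hu) (Prod.ext rfl hb)⟩
  · obtain ⟨j, h1, h2, h3⟩ := hg.gap p q hpq (HasLit.le f hq) hall
    obtain ⟨u, hu, hnb⟩ := hmiss j h1 h2
    rw [h3 _ (hpmin _ (hlit u hu)) (hqmax _ (hlit u hu))] at hnb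
    exact absurd hnb (by decide)

end

/-- If the graph has a solution, then it is not strongly 2-divisible. -/
theorem not_divisible {L : ℕ} {nb : ℕ → ℕ → Bool → Bool} (hg : Good L nb) {σ : ℕ → Bool}
    (hσ : Sol L nb σ) : ¬ StronglyDivisible 2 (DG L nb) := by
  intro hsd
  set S : Set {v : Cd // v ∈ VL L} := {v | v.1.1 = 0 → v.1.2.2 = σ v.1.2.1} with hS
  obtain ⟨c, hc⟩ := hsd S
  have hadj : ∀ x y : S, ((DG L nb).induce S).Adj x y ↔
      half nb x.1.1 y.1.1 = true ∨ half nb y.1.1 x.1.1 = true := fun x y => by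
    rw [SimpleGraph.comap_adj]
    exact adjD_iff
  -- the literals and the connector vertices
  have hlitV : ∀ i, i ≤ L → ((0, i, σ i) : Cd) ∈ VL L := fun i hi => mem_VL.2 (Or.inl ⟨rfl, hi⟩)
  have hconV : ∀ k j, 1 ≤ k → k ≤ 5 → j < L → ((k, j, false) : Cd) ∈ VL L :=
    fun k j h1 h2 h3 => mem_VL.2 (Or.inr ⟨h1, h2, h3, rfl⟩)
  let lit : ∀ i, i ≤ L → S := fun i hi => ⟨⟨(0, i, σ i), hlitV i hi⟩, fun _ => rfl⟩
  let con : ∀ k j, 1 ≤ k → k ≤ 5 → j < L → S := fun k j h1 h2 h3 =>
    ⟨⟨(k, j, false), hconV k j h1 h2 h3⟩, fun h => by simp only at h; omega⟩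
  have hcode : ∀ v : S, (v.1.1.1 = 0 ∧ v.1.1.2.1 ≤ L ∧ v.1.1.2.2 = σ v.1.1.2.1) ∨
      (1 ≤ v.1.1.1 ∧ v.1.1.1 ≤ 5 ∧ v.1.1.2.1 < L ∧ v.1.1.2.2 = false) := by
    intro v
    rcases mem_VL.1 v.1.2 with h | h
    · exact Or.inl ⟨h.1, h.2, v.2 h.1⟩
    · exact Or.inr h
  -- chain edges
  have hchain : ∀ x y : S, ((DG L nb).induce S).Adj x y →
      (y.1.1.1 = 1 ∨ y.1.1.1 = 2 ∨ y.1.1.1 = 4 ∨ y.1.1.1 = 5) → c x ≠ c y := by
    intro x y hxy hy
    refine ne_of_pair hc hxy fun v h1 h2 => ?_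
    rw [hadj, half_iff, half_iff] at hxy h1 h2
    have hx := hcode x
    have hv := hcode v
    have hy' := hcode y
    rcases hy with hy | hy | hy | hy
    · omega
    · omega
    · omega
    · omega
  have hstep : ∀ i (h : i < L), c (lit i h.le) = c (lit (i + 1) h) := by
    intro i h
    have e1 : c (lit i h.le) ≠ c (con 1 i (by omega) (by omega) h) :=
      hchain _ _ ((hadj _ _).2 (Or.inl (half_iff.2 (by simp [lit, con])))) (by simp [con])
    have e2 : c (con 1 i (by omega) (by omega) h) ≠ c (con 2 i (by omega) (by omega) h) :=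
      hchain _ _ ((hadj _ _).2 (Or.inl (half_iff.2 (by simp [con])))) (by simp [con])
    have e3 : c (con 3 i (by omega) (by omega) h) ≠ c (con 2 i (by omega) (by omega) h) :=
      hchain _ _ ((hadj _ _).2 (Or.inr (half_iff.2 (by simp [con])))) (by simp [con])
    have e4 : c (con 3 i (by omega) (by omega) h) ≠ c (con 4 i (by omega) (by omega) h) :=
      hchain _ _ ((hadj _ _).2 (Or.inl (half_iff.2 (by simp [con])))) (by simp [con])
    have e5 : c (con 5 i (by omega) (by omega) h) ≠ c (con 4 i (by omega) (by omega) h) :=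
      hchain _ _ ((hadj _ _).2 (Or.inr (half_iff.2 (by simp [con])))) (by simp [con])
    have e6 : c (lit (i + 1) h) ≠ c (con 5 i (by omega) (by omega) h) :=
      hchain _ _ ((hadj _ _).2 (Or.inl (half_iff.2 (by simp [lit, con])))) (by simp [con])
    omega
  have hall : ∀ i (h : i ≤ L), c (lit i h) = c (lit 0 (Nat.zero_le _)) := by
    intro i
    induction i with
    | zero => exact fun _ => rfl
    | succ i ih => exact fun h => (hstep i h).symm.trans (ih (Nat.le_of_succ_le h))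
  -- the clique of all literals
  have hKmem : ∀ i (h : i ≤ L), lit i h ∈ {v : S | v.1.1.1 = 0} := fun i h => rfl
  refine hc {v : S | v.1.1.1 = 0} (maximal_of ?_ ?_) ?_ ⟨c (lit 0 (Nat.zero_le _)), ?_⟩
  · intro x hx y hy hxy
    have hx' : x.1.1.1 = 0 := hx
    have hy' : y.1.1.1 = 0 := hy
    rw [hadj, half_iff, half_iff]
    have hne : x.1.1.2.1 ≠ y.1.1.2.1 := by
      intro h
      refine hxy (Subtype.ext (Subtype.ext (Prod.ext (hx'.trans hy'.symm) (Prod.ext h ?_))))
      rw [x.2 hx', y.2 hy', h]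
    omega
  · intro v hv
    rcases hcode v with h | h
    · exact h.1
    · exfalso
      have hn : ∀ i (hi : i ≤ L), half nb (0, i, σ i) v.1.1 = true := by
        intro i hi
        have h1 := hv (lit i hi) (hKmem i hi) (fun he => by
          rw [← he] at h
          simp [lit] at h)
        rw [hadj] at h1
        rcases h1 with h1 | h1
        · exact h1
        · rw [half_iff] at h1
          simp only [lit] at h1
          omega
      have h1 := hn 0 (Nat.zero_le _)
      have h2 := hn L le_rfl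
      have hpos := hg.pos
      rw [half_iff] at h1 h2
      simp only at h1 h2
      have h3 : v.1.1.1 = 3 := by omega
      obtain ⟨i, hi, hnb⟩ := hσ v.1.1.2.1 h.2.2.1
      have h4 := hn i hi
      rw [half_iff] at h4
      simp only at h4
      rcases h4 with h4 | h4 | h4 | h4 | h4
      · omega
      · omega
      · omega
      · omega
      · rw [hnb] at h4
        exact absurd h4.2 (by decide)
  · refine ⟨lit 0 (Nat.zero_le _), hKmem 0 (Nat.zero_le _), lit L le_rfl, hKmem L le_rfl,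
      fun he => ?_⟩
    have h1 : (0 : ℕ) = L := congrArg (fun x : S => x.1.1.2.1) he
    have := hg.pos
    omega
  · intro v hv
    have hv0 : v.1.1.1 = 0 := hv
    rcases hcode v with h | h
    · have : v = lit v.1.1.2.1 h.2.1 :=
        Subtype.ext (Subtype.ext (Prod.ext h.1 (Prod.ext rfl h.2.2)))
      rw [this]
      exact hall _ h.2.1
    · omega

/-- The graph is strongly 2-divisible exactly if there is no solution. -/
theorem divisible_iff {L : ℕ} {nb : ℕ → ℕ → Bool → Bool} (hg : Good L nb) :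
    StronglyDivisible 2 (DG L nb) ↔ ¬ ∃ σ, Sol L nb σ := by
  constructor
  · rintro h ⟨σ, hσ⟩
    exact not_divisible hg hσ h
  · intro h S
    exact colourable (SimpleGraph.Embedding.induce S) hg fun σ hσ => h ⟨σ, hσ⟩

end Pool.Agent.Q227.SD
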