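import Pool.Agent.Q227.SD.Main
import Pool.Agent.Q227.MkM
import Pool.Agent.Q227.SI.Sat
import Pool.Agent.Q227.NoDec

/-!
# Strongly 2-divisible graphs: the instances
-/

set_option autoImplicit false

namespace Pool.Agent.Q227.SD

open Pool.Agent.NPC Pool.Agent.H679R2 Pool.Agent.Q227.TF Pool.Agent.Q227.SI

/-! ### Isomorphic graphs -/

theorem CliqueColourable.iso {k : ℕ} {V W : Type} {G : SimpleGraph V} {H : SimpleGraph W}
    (h : CliqueColourable k G) (e : H ≃g G) : CliqueColourable k H := by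
  obtain ⟨c, hc⟩ := h
  refine ⟨fun w => c (e w), fun K hK hnt hm => ?_⟩
  refine hc (e '' K) (maximal_of ?_ fun v hv => ?_) (hnt.image e.injective) ?_
  · rintro _ ⟨a, ha, rfl⟩ _ ⟨b, hb, rfl⟩ hab
    exact e.map_adj_iff.2 (hK.prop ha hb fun h => hab (by rw [h]))
  · refine ⟨e.symm v, mem_of_maximal hK fun u hu huv => ?_, e.apply_symm_apply v⟩
    rw [← e.map_adj_iff, e.apply_symm_apply]
    refine hv (e u) ⟨u, hu, rfl⟩ fun h => huv ?_
    rw [← h, e.symm_apply_apply]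
  · obtain ⟨i, hi⟩ := hm
    refine ⟨i, ?_⟩
    rintro _ ⟨a, ha, rfl⟩
    exact hi a ha

theorem StronglyDivisible.iso {k : ℕ} {V W : Type} {G : SimpleGraph V} {H : SimpleGraph W}
    (h : StronglyDivisible k G) (e : H ≃g G) : StronglyDivisible k H := by
  intro S
  refine (h (e.symm ⁻¹' S)).iso ⟨⟨fun w => ⟨e w.1, by
    change e.symm (e w.1) ∈ S
    rw [e.symm_apply_apply]
    exact w.2⟩, fun v => ⟨e.symm v.1, v.2⟩, fun w => Subtype.ext (e.symm_apply_apply _),
    fun v => Subtype.ext (e.apply_symm_apply _)⟩, ?_⟩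
  intro a b
  exact e.map_adj_iff

/-! ### The instances -/

/-- The connector belongs to a clause. -/
def clB (m j : ℕ) : Bool := decide (3 * m < j) && decide ((j - 3 * m - 1) % 2 = 0)

theorem clB_iff {m j : ℕ} : clB m j = true ↔ 3 * m < j ∧ (j - 3 * m - 1) % 2 = 0 := by
  unfold clB
  rw [Bool.and_eq_true, decide_eq_true_eq, decide_eq_true_eq]

/-- The marks. -/
def nbB (φ : F3) (j i : ℕ) (b : Bool) : Bool :=
  (decide (j = 0) && decide (i = 5 * φ.length + 1)) ||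
  ((decide (1 ≤ j) && !clB φ.length j) && decide (i = 0)) ||
  ((clB φ.length j && decide (1 ≤ i ∧ i ≤ 3 * φ.length)) &&
    litIn φ (i - 1) b ((j - 3 * φ.length - 1) / 2))

theorem nbB_iff {φ : F3} {j i : ℕ} {b : Bool} : nbB φ j i b = true ↔
    (j = 0 ∧ i = 5 * φ.length + 1) ∨
    ((1 ≤ j ∧ ¬ (3 * φ.length < j ∧ (j - 3 * φ.length - 1) % 2 = 0)) ∧ i = 0) ∨
    (((3 * φ.length < j ∧ (j - 3 * φ.length - 1) % 2 = 0) ∧ 1 ≤ i ∧ i ≤ 3 * φ.length) ∧
      litIn φ (i - 1) b ((j - 3 * φ.length - 1) / 2) = true) := by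
  unfold nbB
  simp only [Bool.or_eq_true, Bool.and_eq_true, decide_eq_true_eq, Bool.not_eq_true', clB_iff,
    or_assoc, ← Bool.not_eq_true]

theorem good {φ : F3} (hne : φ ≠ []) : Good (5 * φ.length + 1) (nbB φ) := by
  have hm : 0 < φ.length := List.length_pos_iff.2 hne
  refine ⟨by omega, fun j b => ⟨?_, ?_⟩, fun p q hpq hq hpL => ?_⟩
  · rw [← Bool.not_eq_true, nbB_iff]
    omega
  · rw [← Bool.not_eq_true, nbB_iff]
    omega
  · have key : ∃ j, p ≤ j ∧ j < q ∧ ((p = 0 ∧ j = 0) ∨ (p ≠ 0 ∧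
        (¬ (3 * φ.length < j ∧ (j - 3 * φ.length - 1) % 2 = 0) ∨ 3 * φ.length < p))) := by
      by_cases hp : p = 0
      · exact ⟨p, le_rfl, hpq, Or.inl ⟨hp, hp⟩⟩
      · by_cases h1 : 3 * φ.length < p
        · exact ⟨p, le_rfl, hpq, Or.inr ⟨hp, Or.inr h1⟩⟩
        · exact ⟨p, le_rfl, hpq, Or.inr ⟨hp, Or.inl (by omega)⟩⟩
    obtain ⟨j, h1, h2, h3⟩ := key
    refine ⟨j, h1, h2, fun i hi1 hi2 b => ?_⟩
    rw [← Bool.not_eq_true, nbB_iff]
    omega

theorem sol_iff {φ : F3} (hb : Bounded3 φ) :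
    SAT3 φ ↔ ∃ σ, Sol (5 * φ.length + 1) (nbB φ) σ := by
  constructor
  · rintro ⟨τ, hτ⟩
    refine ⟨fun i => τ (i - 1), fun j hj => ?_⟩
    by_cases h0 : j = 0
    · exact ⟨5 * φ.length + 1, le_rfl, nbB_iff.2 (Or.inl ⟨h0, rfl⟩)⟩
    by_cases h1 : 3 * φ.length < j ∧ (j - 3 * φ.length - 1) % 2 = 0
    · set k := (j - 3 * φ.length - 1) / 2 with hk
      have hkm : k < φ.length := by omega
      have hbc := hb φ[k] (List.getElem_mem hkm)
      have key : ∀ l : Lit ℕ, (l = φ[k].1 ∨ l = φ[k].2.1 ∨ l = φ[k].2.2) →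
          l.2 < 3 * φ.length → τ l.2 = l.1 →
          ∃ i ≤ 5 * φ.length + 1, nbB φ j i (τ (i - 1)) = true := by
        intro l h2 h3 h4
        refine ⟨l.2 + 1, by omega, nbB_iff.2 (Or.inr (Or.inr ⟨⟨h1, by omega, by omega⟩, ?_⟩))⟩
        rw [Nat.add_sub_cancel, h4, ← hk, litIn_iff]
        refine ⟨hkm, ?_⟩
        rcases h2 with h2 | h2 | h2
        · exact Or.inl h2.symm
        · exact Or.inr (Or.inl h2.symm)
        · exact Or.inr (Or.inr h2.symm)
      rcases hτ φ[k] (List.getElem_mem hkm) with h | h | h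
      · exact key _ (Or.inl rfl) hbc.1 h
      · exact key _ (Or.inr (Or.inl rfl)) hbc.2.1 h
      · exact key _ (Or.inr (Or.inr rfl)) hbc.2.2 h
    · exact ⟨0, Nat.zero_le _, nbB_iff.2 (Or.inr (Or.inl ⟨⟨by omega, h1⟩, rfl⟩))⟩
  · rintro ⟨σ, hσ⟩
    refine ⟨fun x => σ (x + 1), fun c hc => ?_⟩
    obtain ⟨k, hk, rfl⟩ := List.getElem_of_mem hc
    obtain ⟨i, hi, h⟩ := hσ (3 * φ.length + 1 + 2 * k) (by omega)
    rw [nbB_iff] at h
    have e1 : (3 * φ.length + 1 + 2 * k - 3 * φ.length - 1) / 2 = k := by omega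
    rw [e1, litIn_iff] at h
    rcases h with h | h | ⟨h1, _, h2⟩
    · omega
    · omega
    · have e2 : i - 1 + 1 = i := by omega
      rcases h2 with h2 | h2 | h2
      · left
        rw [h2]
        simp only
        rw [e2]
      · right; left
        rw [h2]
        simp only
        rw [e2]
      · right; right
        rw [h2]
        simp only
        rw [e2]

/-- The instance. -/
def inst (φ : F3) : List (List Bool) := mkM (VL (5 * φ.length + 1)) (adjD (nbB φ))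

theorem correct {φ : F3} (hb : Bounded3 φ) (hne : φ ≠ []) :
    SAT3 φ ↔ ¬ StronglyDivisible 2 (matGraph (inst φ)) := by
  obtain ⟨e⟩ := mkM_iso (VL_nodup (5 * φ.length + 1)) (adjD (nbB φ)) (adjD_symm _) (adjD_irrefl _)
  rw [sol_iff hb]
  have h := divisible_iff (good hne)
  constructor
  · intro h1 h2
    exact (h.1 (h2.iso e.symm)) h1
  · intro h1
    by_contra h2
    exact h1 ((h.2 h2).iso e)

/-! ### Running time -/

theorem half_poly {α : Type} [TEnc α] {φ : α → F3} {x y : α → Cd} (hφ : NPC.Poly φ)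
    (hx : NPC.Poly x) (hy : NPC.Poly y) : NPC.Poly (fun a => half (nbB (φ a)) (x a) (y a)) := by
  have hm : NPC.Poly (fun a => (φ a).length) := NPC.Poly.length hφ
  have hx1 := NPC.Poly.fst hx
  have hx2 := NPC.Poly.fst (NPC.Poly.snd hx)
  have hx3 := NPC.Poly.snd (NPC.Poly.snd hx)
  have hy1 := NPC.Poly.fst hy
  have hy2 := NPC.Poly.fst (NPC.Poly.snd hy)
  have hcl : NPC.Poly (fun a => clB (φ a).length (y a).2.1) := by
    unfold clB
    fun_prop
  have hli : NPC.Poly (fun a => litIn (φ a) ((x a).2.1 - 1) (x a).2.2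
      (((y a).2.1 - 3 * (φ a).length - 1) / 2)) := by
    refine litIn_poly hφ ?_ hx3 ?_
    · fun_prop
    · fun_prop
  have hnb : NPC.Poly (fun a => nbB (φ a) (y a).2.1 (x a).2.1 (x a).2.2) := by
    unfold nbB
    refine NPC.Poly.or (NPC.Poly.or ?_ ?_) (NPC.Poly.and (NPC.Poly.and hcl ?_) hli)
    · fun_prop
    · exact NPC.Poly.and (NPC.Poly.and (by fun_prop) (NPC.Poly.not hcl)) (by fun_prop)
    · fun_prop
  unfold half
  refine NPC.Poly.or (NPC.Poly.or (NPC.Poly.or (NPC.Poly.or ?_ ?_) ?_) ?_)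
    (NPC.Poly.and ?_ (NPC.Poly.not hnb))
  · fun_prop
  · fun_prop
  · fun_prop
  · fun_prop
  · fun_prop

theorem VL_poly : NPC.Poly (fun φ : F3 => VL (5 * φ.length + 1)) := by
  have hm : UPoly (fun φ : F3 => φ.length) := UPoly.length NPC.Poly.id
  have hL : UPoly (fun φ : F3 => 5 * φ.length + 1) :=
    UPoly.add (UPoly.mul (UPoly.const 5) hm) (UPoly.const 1)
  have h1 : NPC.Poly (fun φ : F3 => List.range (5 * φ.length + 1)) := hL.range
  have h2 : NPC.Poly (fun φ : F3 => List.range (5 * φ.length + 1 + 1)) :=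
    (UPoly.add hL (UPoly.const 1)).range
  unfold VL
  refine NPC.Poly.append ?_ ?_
  · refine NPC.Poly.map (F := fun (_ : F3) (p : ℕ × Bool) => ((0, p) : Cd))
      (product_poly h2 (NPC.Poly.const [false, true])) ?_
    fun_prop
  · refine NPC.Poly.map (F := fun (_ : F3) (p : ℕ × ℕ) => ((p.1, p.2, false) : Cd))
      (product_poly (NPC.Poly.const [1, 2, 3, 4, 5]) h1) ?_
    fun_prop

theorem inst_poly : NPC.Poly inst := by
  refine mkM_poly (α := F3) (L := fun φ : F3 => VL (5 * φ.length + 1))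
    (adj := fun φ => adjD (nbB φ)) VL_poly ?_
  unfold adjD
  exact NPC.Poly.or
    (half_poly (NPC.Poly.fst NPC.Poly.id) (NPC.Poly.fst (NPC.Poly.snd NPC.Poly.id))
      (NPC.Poly.snd (NPC.Poly.snd NPC.Poly.id)))
    (half_poly (NPC.Poly.fst NPC.Poly.id) (NPC.Poly.snd (NPC.Poly.snd NPC.Poly.id))
      (NPC.Poly.fst (NPC.Poly.snd NPC.Poly.id)))

end Pool.Agent.Q227.SD
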